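import Pool.Agent.Helper50.Tm.Goals

/-!
Two points of a formally smooth algebra which agree modulo a nilpotent ideal are joined by a line.
-/

open TensorProduct

namespace Pool.Agent.Helper15.Tm

section Abs

variable {S L G B : Type} [CommRing S] [CommRing L] [CommRing G] [CommRing B]
  [Algebra S L] [Algebra S G] [Algebra S B]

/-- The subalgebra of the elements which are constant modulo `N`. -/
def sP (i : L →ₐ[S] G) (e : G →ₐ[S] L) (N : Ideal L) :
    Subalgebra S G where
  carrier := {f | f - i (e f) ∈ N.map (i : L →+* G)}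
  mul_mem' := by
    intro f g hf hg
    simp only [Set.mem_ofPred_eq] at hf hg ⊢
    have : f * g - i (e (f * g)) = f * (g - i (e g)) + i (e g) * (f - i (e f)) := by
      rw [map_mul, map_mul]; ring
    rw [this]
    exact Ideal.add_mem _ (Ideal.mul_mem_left _ _ hg) (Ideal.mul_mem_left _ _ hf)
  add_mem' := by
    intro f g hf hg
    simp only [Set.mem_ofPred_eq] at hf hg ⊢
    have : f + g - i (e (f + g)) = (f - i (e f)) + (g - i (e g)) := by
      rw [map_add, map_add]; ring
    rw [this]
    exact Ideal.add_mem _ hf hg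
  algebraMap_mem' := by
    intro s
    simp

/-- The fibre product. -/
def sQ (N : Ideal L) : Subalgebra S (L × L) where
  carrier := {p | p.2 - p.1 ∈ N}
  mul_mem' := by
    intro f g hf hg
    simp only [Set.mem_ofPred_eq] at hf hg ⊢
    have : (f * g).2 - (f * g).1 = f.2 * (g.2 - g.1) + g.1 * (f.2 - f.1) := by
      rw [Prod.snd_mul, Prod.fst_mul]; ring
    rw [this]
    exact Ideal.add_mem _ (Ideal.mul_mem_left _ _ hg) (Ideal.mul_mem_left _ _ hf)
  add_mem' := by
    intro f g hf hg
    simp only [Set.mem_ofPred_eq] at hf hg ⊢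
    have : (f + g).2 - (f + g).1 = (f.2 - f.1) + (g.2 - g.1) := by
      rw [Prod.snd_add, Prod.fst_add]; ring
    rw [this]
    exact Ideal.add_mem _ hf hg
  algebraMap_mem' := by
    intro s
    simp

theorem abs [Algebra.FormallySmooth S B] (i : L →ₐ[S] G) (e0 e1 : G →ₐ[S] L)
    (h0 : e0.comp i = AlgHom.id S L) (h1 : e1.comp i = AlgHom.id S L) (X : G)
    (hX0 : e0 X = 0) (hX1 : e1 X = 1) (N : Ideal L) (n : ℕ) (hN : N ^ n = ⊥)
    (b b' : B →ₐ[S] L) (hb : ∀ x, b' x - b x ∈ N) :
    ∃ F : B →ₐ[S] G, e0.comp F = b ∧ e1.comp F = b' := by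
  have h0' : ∀ x, e0 (i x) = x := fun x => DFunLike.congr_fun h0 x
  have h1' : ∀ x, e1 (i x) = x := fun x => DFunLike.congr_fun h1 x
  let P := sP i e0 N
  let Q : Subalgebra S (L × L) := sQ N
  have hev : ∀ f : P, (e1 (f : G)) - e0 (f : G) ∈ N := by
    intro f
    have hf : (f : G) - i (e0 (f : G)) ∈ N.map (i : L →+* G) := f.2
    have h2 : e1 ((f : G) - i (e0 (f : G))) ∈ (N.map (i : L →+* G)).map (e1 : G →+* L) :=
      Ideal.mem_map_of_mem (e1 : G →+* L) hf
    rw [Ideal.map_map] at h2
    have h3 : (e1 : G →+* L).comp (i : L →+* G) = RingHom.id L := by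
      ext x; exact h1' x
    rw [h3, Ideal.map_id, map_sub, h1'] at h2
    exact h2
  let ev : P →ₐ[S] Q := AlgHom.codRestrict ((AlgHom.prod e0 e1).comp P.val) Q (fun f => hev f)
  have ev1 : ∀ f : P, ((ev f : Q) : L × L).1 = e0 (f : G) := fun f => rfl
  have ev2 : ∀ f : P, ((ev f : Q) : L × L).2 = e1 (f : G) := fun f => rfl
  have hsurj : Function.Surjective ev := by
    rintro ⟨⟨a, c⟩, hac⟩
    have hac' : c - a ∈ N := hac
    have hmem : i a + i (c - a) * X ∈ P := by
      change (i a + i (c - a) * X) - i (e0 (i a + i (c - a) * X)) ∈ N.map (i : L →+* G)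
      have : (i a + i (c - a) * X) - i (e0 (i a + i (c - a) * X)) = X * i (c - a) := by
        rw [map_add, map_mul, hX0, mul_zero, add_zero, h0']
        ring
      rw [this]
      exact Ideal.mul_mem_left _ _ (Ideal.mem_map_of_mem (i : L →+* G) hac')
    refine ⟨⟨_, hmem⟩, ?_⟩
    apply Subtype.ext
    apply Prod.ext
    · rw [ev1]
      change e0 (i a + i (c - a) * X) = a
      rw [map_add, map_mul, hX0, mul_zero, add_zero, h0']
    · rw [ev2]
      change e1 (i a + i (c - a) * X) = c
      rw [map_add, map_mul, hX1, mul_one, h1', h1']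
      ring
  have hker : RingHom.ker (ev : P →+* Q) ≤ (N.map (i : L →+* G)).comap (P.val : P →+* G) := by
    intro f hf
    have hf0 : ev f = 0 := hf
    have h2 : e0 (f : G) = 0 := by rw [← ev1, hf0]; rfl
    have h3 : (f : G) - i (e0 (f : G)) ∈ N.map (i : L →+* G) := f.2
    rw [h2, map_zero, sub_zero] at h3
    exact h3
  have hnil : IsNilpotent (RingHom.ker (ev : P →+* Q)) := by
    refine ⟨n, ?_⟩
    have h4 : RingHom.ker (ev : P →+* Q) ^ n ≤
        ((N.map (i : L →+* G)) ^ n).comap (P.val : P →+* G) :=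
      (Ideal.pow_right_mono hker n).trans (Ideal.le_comap_pow _ _)
    rw [← Ideal.map_pow, hN, Ideal.map_bot] at h4
    have h5 : (⊥ : Ideal G).comap (P.val : P →+* G) = ⊥ :=
      (RingHom.injective_iff_ker_eq_bot _).1 (Subtype.val_injective)
    rw [h5] at h4
    exact le_bot_iff.1 h4
  let bb : B →ₐ[S] Q := AlgHom.codRestrict (AlgHom.prod b b') Q (fun x => hb x)
  let F := Algebra.FormallySmooth.liftOfSurjective bb ev hsurj hnil
  have hF : ∀ x, ev (F x) = bb x := fun x =>
    Algebra.FormallySmooth.liftOfSurjective_apply bb ev hsurj hnil x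
  refine ⟨P.val.comp F, ?_, ?_⟩
  · ext x
    change e0 ((F x : P) : G) = b x
    rw [← ev1, hF]
    rfl
  · ext x
    change e1 ((F x : P) : G) = b' x
    rw [← ev2, hF]
    rfl

end Abs

theorem gLINE : Pool.Agent.Helper50.Tm.LINE := by
  intro R S B _ _ _ _ _ _ _ _ _ _ _ _ ⟨n, hn⟩ π β β' hπ
  let k := IsLocalRing.ResidueField R
  have hs : ∀ x : S ⊗[R] k, ∃ s : S, s ⊗ₜ[R] (1 : k) = x := by
    intro x
    induction x using TensorProduct.induction_on with
    | zero => exact ⟨0, TensorProduct.zero_tmul _ _⟩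
    | tmul s c =>
      obtain ⟨r, rfl⟩ := IsLocalRing.residue_surjective c
      refine ⟨r • s, ?_⟩
      rw [TensorProduct.smul_tmul]
      congr 1
      rw [Algebra.smul_def, mul_one]
      rfl
    | add x y hx hy =>
      obtain ⟨s, rfl⟩ := hx
      obtain ⟨t, rfl⟩ := hy
      exact ⟨s + t, TensorProduct.add_tmul _ _ _⟩
  let N : Ideal (S ⊗[R] k) :=
    (IsLocalRing.maximalIdeal S).map (algebraMap S (S ⊗[R] k))
  have hN : N ^ n = ⊥ := by
    rw [← Ideal.map_pow, eq_bot_iff]
    refine (Ideal.map_mono hn).trans ?_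
    rw [Ideal.map_map, Ideal.map_le_iff_le_comap]
    intro r hr
    rw [Ideal.mem_comap, Ideal.mem_bot]
    change algebraMap S (S ⊗[R] k) (algebraMap R S r) = 0
    rw [Algebra.TensorProduct.algebraMap_apply]
    change (algebraMap R S r) ⊗ₜ[R] (1 : k) = 0
    rw [Algebra.algebraMap_eq_smul_one, TensorProduct.smul_tmul, Algebra.smul_def, mul_one]
    have : algebraMap R k r = 0 := (IsLocalRing.residue_eq_zero_iff r).2 hr
    rw [this, TensorProduct.tmul_zero]
  have hker : ∀ x : S ⊗[R] k, π x = 0 → x ∈ N := by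
    intro x hx
    obtain ⟨s, rfl⟩ := hs x
    have h1 : s ⊗ₜ[R] (1 : k) = algebraMap S (S ⊗[R] k) s := rfl
    rw [h1, AlgHom.commutes] at hx
    have h2 : s ∈ IsLocalRing.maximalIdeal S := (IsLocalRing.residue_eq_zero_iff s).1 hx
    rw [h1]
    exact Ideal.mem_map_of_mem _ h2
  refine abs (Algebra.TensorProduct.map (AlgHom.id S S)
    ((Algebra.ofId k (Polynomial k)).restrictScalars R)) _ _ ?_ ?_
    ((1 : S) ⊗ₜ[R] (Polynomial.X : Polynomial k)) ?_ ?_ N n hN β β' ?_
  · rw [← Algebra.TensorProduct.map_comp]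
    have : ((Polynomial.aeval (0 : k)).restrictScalars R).comp
        ((Algebra.ofId k (Polynomial k)).restrictScalars R) = AlgHom.id R k := by
      ext x
      exact (Polynomial.aeval (R := k) (0 : k)).commutes x
    rw [this]
    exact Algebra.TensorProduct.map_id
  · rw [← Algebra.TensorProduct.map_comp]
    have : ((Polynomial.aeval (1 : k)).restrictScalars R).comp
        ((Algebra.ofId k (Polynomial k)).restrictScalars R) = AlgHom.id R k := by
      ext x
      exact (Polynomial.aeval (R := k) (1 : k)).commutes x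
    rw [this]
    exact Algebra.TensorProduct.map_id
  · simp
  · simp only [Algebra.TensorProduct.map_tmul, AlgHom.coe_id, id_eq,
      AlgHom.coe_restrictScalars', Polynomial.aeval_X]
    rfl
  · intro x
    apply hker
    rw [map_sub, sub_eq_zero]
    exact (DFunLike.congr_fun hπ x).symm

end Pool.Agent.Helper15.Tm
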